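import Pool.Agent.W609.CR.Stm

set_option autoImplicit false

/-! The reversal of an irreducible polynomial is irreducible. -/

namespace Pool.Agent.W883.CR

open Finset MvPolynomial Pool.Agent.W609.CR

variable {K : Type} [Field K] {n : ℕ}

theorem le_of_deg {N : Fin (n + 1) →₀ ℕ} {f : MvPolynomial (Fin (n + 1)) K}
    (hN : ∀ i, degreeOf i f ≤ N i) : ∀ a ∈ f.support, a ≤ N := by
  intro a ha i
  exact (monomial_le_degreeOf i ha).trans (hN i)

theorem mem_rev {N : Fin (n + 1) →₀ ℕ} {f : MvPolynomial (Fin (n + 1)) K}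
    (hN : ∀ a ∈ f.support, a ≤ N) {a : Fin (n + 1) →₀ ℕ} (ha : a ∈ f.support) :
    N - a ∈ (rev N f).support := by
  rw [mem_support_iff, coeff_rev hN ha]
  exact mem_support_iff.1 ha

theorem rev_rev {N : Fin (n + 1) →₀ ℕ} {f : MvPolynomial (Fin (n + 1)) K}
    (hN : ∀ a ∈ f.support, a ≤ N) : rev N (rev N f) = f := by
  classical
  have hsupp : (rev N f).support = f.support.image (fun a => N - a) := by
    ext b
    rw [mem_image]
    constructor
    · intro hb
      obtain ⟨a, ha, rfl⟩ := mem_support_rev hb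
      exact ⟨a, ha, rfl⟩
    · rintro ⟨a, ha, rfl⟩
      exact mem_rev hN ha
  have h1 : rev N (rev N f) = ∑ b ∈ (rev N f).support, monomial (N - b) (coeff b (rev N f)) := rfl
  rw [h1, hsupp, Finset.sum_image]
  · conv_rhs => rw [← f.support_sum_monomial_coeff]
    refine Finset.sum_congr rfl fun a ha => ?_
    rw [coeff_rev hN ha, tsub_tsub_cancel_of_le (hN a ha)]
  · intro a ha b hb hab
    have h2 := tsub_tsub_cancel_of_le (hN a ha)
    have h3 := tsub_tsub_cancel_of_le (hN b hb)
    simp only at hab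
    rw [hab, h3] at h2
    exact h2.symm

theorem exists_zero {i : Fin (n + 1)} {f : MvPolynomial (Fin (n + 1)) K}
    (h : ¬ (X i : MvPolynomial (Fin (n + 1)) K) ∣ f) : ∃ a ∈ f.support, a i = 0 := by
  by_contra hne
  push Not at hne
  apply h
  rw [← f.support_sum_monomial_coeff]
  refine Finset.dvd_sum fun a ha => ?_
  rw [X_dvd_monomial]
  exact Or.inr (hne a ha)

theorem not_dvd {i : Fin (n + 1)} {f : MvPolynomial (Fin (n + 1)) K} {a : Fin (n + 1) →₀ ℕ}
    (ha : a ∈ f.support) (h0 : a i = 0) : ¬ (X i : MvPolynomial (Fin (n + 1)) K) ∣ f := by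
  classical
  rintro ⟨g, rfl⟩
  rw [mem_support_iff, coeff_X_mul', if_neg (by simp [h0])] at ha
  exact ha rfl

theorem key {N : Fin (n + 1) →₀ ℕ} {f : MvPolynomial (Fin (n + 1)) K}
    (hN : ∀ a ∈ f.support, a ≤ N) :
    algebraMap (MvPolynomial (Fin (n + 1)) K) (FractionRing (MvPolynomial (Fin (n + 1)) K)) (rev N f) =
      (∏ l, algebraMap (MvPolynomial (Fin (n + 1)) K) (FractionRing (MvPolynomial (Fin (n + 1)) K))
        (X l) ^ N l) *
      aeval (fun l => (algebraMap (MvPolynomial (Fin (n + 1)) K)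
        (FractionRing (MvPolynomial (Fin (n + 1)) K)) (X l))⁻¹) f := by
  set u : Fin (n + 1) → FractionRing (MvPolynomial (Fin (n + 1)) K) := fun l =>
    algebraMap (MvPolynomial (Fin (n + 1)) K) (FractionRing (MvPolynomial (Fin (n + 1)) K)) (X l)
    with hu
  have hu0 : ∀ l, u l ≠ 0 := by
    intro l h
    have h2 := (IsFractionRing.injective (MvPolynomial (Fin (n + 1)) K)
      (FractionRing (MvPolynomial (Fin (n + 1)) K))) (h.trans (map_zero _).symm)
    exact X_ne_zero l h2
  conv_rhs => rw [← f.support_sum_monomial_coeff]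
  unfold rev
  rw [map_sum, map_sum, Finset.mul_sum]
  refine Finset.sum_congr rfl fun a ha => ?_
  rw [aeval_monomial, Finsupp.prod_fintype _ _ (by intro; simp), monomial_eq,
    Finsupp.prod_fintype _ _ (by intro; simp), map_mul, map_prod, mul_left_comm,
    ← Finset.prod_mul_distrib]
  congr 1
  refine Finset.prod_congr rfl fun l _ => ?_
  rw [map_pow]
  have h3 : N l = (N l - a l) + a l := (tsub_add_cancel_of_le (hN a ha l)).symm
  change u l ^ ((N - a) l) = u l ^ N l * (u l)⁻¹ ^ a l
  conv_rhs => rw [h3, pow_add, mul_assoc, ← mul_pow, mul_inv_cancel₀ (hu0 l), one_pow, mul_one]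
  rfl

theorem rev_mul {N₁ N₂ : Fin (n + 1) →₀ ℕ} {f g : MvPolynomial (Fin (n + 1)) K}
    (h1 : ∀ a ∈ f.support, a ≤ N₁) (h2 : ∀ a ∈ g.support, a ≤ N₂)
    (h3 : ∀ a ∈ (f * g).support, a ≤ N₁ + N₂) : rev (N₁ + N₂) (f * g) = rev N₁ f * rev N₂ g := by
  apply IsFractionRing.injective (MvPolynomial (Fin (n + 1)) K)
      (FractionRing (MvPolynomial (Fin (n + 1)) K))
  rw [map_mul, key h1, key h2, key h3, map_mul]
  simp only [Finsupp.coe_add, Pi.add_apply, pow_add]
  rw [Finset.prod_mul_distrib]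
  ring

theorem const_of {f : MvPolynomial (Fin (n + 1)) K} (h : ∀ i, degreeOf i f = 0) :
    f = C (coeff 0 f) := by
  classical
  ext a
  rw [coeff_C]
  by_cases ha : a = 0
  · rw [ha, if_pos rfl]
  · rw [if_neg (fun h => ha h.symm)]
    by_contra hne
    apply ha
    ext i
    have := monomial_le_degreeOf i (mem_support_iff.2 hne)
    rw [h i] at this
    simpa using this

theorem t_star : P_STAR := by
  classical
  intro K _ f N hf hX hN
  have hNf : ∀ a ∈ f.support, a ≤ N := le_of_deg (fun i => (hN i).ge)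
  have hrr : rev (n := 2) N (rev (n := 2) N f) = f := rev_rev hNf
  have hnd : ∀ i, ¬ (X i : MvPolynomial (Fin 3) K) ∣ rev (n := 2) N f := by
    intro i
    obtain ⟨a, ha, ha2⟩ : ∃ a ∈ f.support, a i = degreeOf i f := by
      have hne : f.support.Nonempty := support_nonempty.2 hf.ne_zero
      obtain ⟨a, ha, h⟩ := Finset.exists_mem_eq_sup f.support hne (fun m => m i)
      exact ⟨a, ha, by rw [degreeOf_eq_sup, h]⟩
    refine not_dvd (n := 2) (mem_rev (n := 2) hNf ha) ?_
    rw [Finsupp.tsub_apply, ha2, hN i, Nat.sub_self]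
  have hdeg : ∀ i, degreeOf i (rev (n := 2) N f) = N i := by
    intro i
    apply le_antisymm
    · rw [degreeOf_le_iff]
      intro b hb
      obtain ⟨a, ha, rfl⟩ := mem_support_rev (n := 2) hb
      rw [Finsupp.tsub_apply]
      exact Nat.sub_le _ _
    · obtain ⟨a, ha, ha0⟩ := exists_zero (n := 2) (hX i)
      have := monomial_le_degreeOf i (mem_rev (n := 2) hNf ha)
      rw [Finsupp.tsub_apply, ha0, Nat.sub_zero] at this
      exact this
  refine ⟨?_, hnd, hdeg, hrr⟩
  have hg0 : rev (n := 2) N f ≠ 0 := rev_ne_zero (n := 2) hNf hf.ne_zero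
  constructor
  · intro hu
    have h0 : ∀ i, degreeOf i (rev (n := 2) N f) = 0 := by
      intro i
      obtain ⟨c, -, hc⟩ := (isUnit_iff_eq_C_of_isReduced).1 hu
      rw [hc, degreeOf_C]
    have h1 : ∀ i, degreeOf i f = 0 := fun i => by rw [← hN i, ← hdeg i, h0 i]
    have h2 := const_of (n := 2) h1
    have h3 : coeff 0 f ≠ 0 := by
      intro h
      rw [h, C_0] at h2
      exact hf.ne_zero h2
    apply hf.not_isUnit
    rw [h2]
    exact (isUnit_iff_ne_zero.2 h3).map C
  · intro a b hab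
    have ha0 : a ≠ 0 := by
      rintro rfl
      rw [zero_mul] at hab
      exact hg0 hab
    have hb0 : b ≠ 0 := by
      rintro rfl
      rw [mul_zero] at hab
      exact hg0 hab
    set Na : Fin 3 →₀ ℕ := Finsupp.equivFunOnFinite.symm (fun i => degreeOf i a) with hNa
    set Nb : Fin 3 →₀ ℕ := Finsupp.equivFunOnFinite.symm (fun i => degreeOf i b) with hNb
    have hNai : ∀ i, Na i = degreeOf i a := fun i => rfl
    have hNbi : ∀ i, Nb i = degreeOf i b := fun i => rfl
    have hsum : Na + Nb = N := by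
      ext i
      rw [Finsupp.add_apply, hNai, hNbi, ← hdeg i, hab, degreeOf_mul_eq ha0 hb0]
    have hsa : ∀ c ∈ a.support, c ≤ Na := le_of_deg (n := 2) (fun i => (hNai i).ge)
    have hsb : ∀ c ∈ b.support, c ≤ Nb := le_of_deg (n := 2) (fun i => (hNbi i).ge)
    have hsab : ∀ c ∈ (a * b).support, c ≤ Na + Nb := by
      rw [← hab, hsum]
      exact le_of_deg (n := 2) (fun i => (hdeg i).le)
    have hfac : f = rev (n := 2) Na a * rev (n := 2) Nb b := by
      rw [← rev_mul (n := 2) hsa hsb hsab, ← hab, hsum, hrr]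
    have hcase : ∀ (c : MvPolynomial (Fin 3) K) (Nc : Fin 3 →₀ ℕ), (∀ i, Nc i = degreeOf i c) →
        c ∣ rev (n := 2) N f → IsUnit (rev (n := 2) Nc c) → IsUnit c := by
      intro c Nc hNc hdvd hu
      have hsc : ∀ e ∈ c.support, e ≤ Nc := le_of_deg (n := 2) (fun i => (hNc i).ge)
      obtain ⟨r, hr, hcr⟩ := (isUnit_iff_eq_C_of_isReduced).1 hu
      have h4 : c = monomial Nc r := by
        rw [← rev_rev (n := 2) hsc, hcr]
        unfold rev
        have hr0 : r ≠ 0 := hr.ne_zero
        have : (C r : MvPolynomial (Fin 3) K).support = {0} := by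
          rw [C_apply, support_monomial, if_neg hr0]
        rw [this, Finset.sum_singleton, coeff_C, if_pos rfl, tsub_zero]
      have h5 : Nc = 0 := by
        ext i
        by_contra hne
        apply hnd i
        refine dvd_trans ?_ hdvd
        rw [h4, X_dvd_monomial]
        exact Or.inr hne
      rw [h4, h5]
      exact hr.map C
    rcases hf.isUnit_or_isUnit hfac with h | h
    · exact Or.inl (hcase a Na hNai ⟨b, hab⟩ h)
    · exact Or.inr (hcase b Nb hNbi ⟨a, by rw [hab, mul_comm]⟩ h)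

end Pool.Agent.W883.CR
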